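import Mathlib
import Pool.Agent.Y793.E.All

/-!
# Alternating fibre powers of embedding problems over Hilbertian fields

`K` is any Hilbertian field of characteristic `0` (the hypothesis is that of the frozen statement
`S03429`), `F₁/K` any finite Galois extension with group `Γ`.

* `Wr B n` is the wreath product `B ≀ S_n = (Fin n → B) ⋊ Perm (Fin n)`.
* For a homomorphism `α : B → Γ`, `AltEP α n` is the group of all `(x, ρ)` with `x` in `B ≀ A_n`,
  `ρ` in `Γ` and `α (x.left i) = ρ` for every `i`; `altProj α n (x, ρ) = ρ`. Its kernel over `Γ` is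
  `ker α ≀ A_n`; for `B = G ⋊ Γ` it is `(G ≀ A_n) ⋊ Γ`.
* For a character `χ : Γ → {1, -1}`, `AltTw α χ n` is the group of all `(x, ρ)` with `x` in
  `B ≀ S_n`, `ρ` in `Γ`, `α (x.left i) = ρ` for every `i` and `sign x.right = χ ρ` (for `χ = 1` it is
  `AltEP α n`); `twProj α χ n (x, ρ) = ρ`.
* `WeakSol K F₁ B α`: there are a finite Galois extension `L'/K` containing `F₁` and a homomorphism
  `s : Gal(L'/K) → B` with `α ∘ s` the restriction (for example `L' = F₁` and `s` a section of `α`,
  when the problem is split).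
* `SolOver K F₁ B α K False`: the embedding problem `α : B → Gal(F₁/K)` has a proper solution.
* `RegSol K F₁ B α`: it has a regular solution over `K(t)`.
* `AllLarge K F₁ α`: there is `k₀` such that `altProj α (8 k + 4)` has a proper solution for all
  `k ≥ k₀`.

First part: if `π : X → Gal(F₁/K)` has a regular solution and `P` is a subgroup of index `2` of `X`
which is mapped onto `Gal(F₁/K)` and whose intersection with the kernel of `π` is perfect, then all
alternating fibre powers of degree `8 k + 4`, `k` large, of `P → Gal(F₁/K)` have proper solutions.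

Second part: for every weakly solvable (for example split) finite embedding problem `α` over `K`
with perfect kernel, every character `χ` and every `n ≥ ((3 |ker α| + 2)!)^3`, all alternating fibre
powers of degree `8 k + 4`, `k` large, of `twProj α χ n` have proper solutions; the kernel of this
embedding problem is `(ker α ≀ A_n) ≀ A_(8 k + 4)`.
-/

set_option autoImplicit false

open Pool.Agent.H391R2 Pool.Agent.H391R2.T4 Pool.Agent.Y793

namespace Pool.Agent.Results.MP_e9d732_al.AlternatingFibrePowers

/-- Hilbertian fields, with the words of the frozen statement `S03429`. -/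
def Hilbertian (K : Type) [Field K] : Prop :=
  ∀ (f : Polynomial (Polynomial K)), f.Monic → Irreducible f →
    (f.map (algebraMap (Polynomial K) (FractionRing (Polynomial K)))).Separable →
    ∀ g : Polynomial K, g ≠ 0 →
      ∃ a : K, g.eval a ≠ 0 ∧ Irreducible (f.map (Polynomial.evalRingHom a))

/-- The alternating fibre powers of `α` of degree `8 k + 4` have proper solutions for all large
`k`. -/
def AllLarge (K F₁ : Type) [Field K] [Field F₁] [Algebra K F₁] {B : Type} [Group B]
    (α : B →* (F₁ ≃ₐ[K] F₁)) : Prop :=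
  ∃ k₀ : ℕ, ∀ k ≥ k₀, SolOver K F₁ (AltEP α (8 * k + 4)) (altProj α (8 * k + 4)) K False

/-- The first part. -/
def Closure (K F₁ : Type) [Field K] [Field F₁] [Algebra K F₁] : Prop :=
  ∀ (X : Type) [Group X] [Finite X] (π : X →* (F₁ ≃ₐ[K] F₁)), RegSol K F₁ X π →
    ∀ P : Subgroup X, P.index = 2 → P.map π = ⊤ →
    (∀ H : Subgroup X, H = P ⊓ π.ker → commutator H = ⊤) → AllLarge K F₁ (π.comp P.subtype)

/-- The second part. -/
def Powers (K F₁ : Type) [Field K] [Field F₁] [Algebra K F₁] [Normal K F₁] : Prop :=
  ∀ (B : Type) [Group B] [Finite B] (α : B →* (F₁ ≃ₐ[K] F₁)), WeakSol K F₁ B α →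
    commutator α.ker = ⊤ → ∀ (χ : (F₁ ≃ₐ[K] F₁) →* ℤˣ) (n : ℕ),
    ((3 * Nat.card α.ker + 2).factorial) ^ 3 ≤ n → AllLarge K F₁ (twProj α χ n)

end Pool.Agent.Results.MP_e9d732_al.AlternatingFibrePowers

open Pool.Agent.Results.MP_e9d732_al.AlternatingFibrePowers in
theorem Pool.Agent.Results.MP_e9d732_al.AlternatingFibrePowers.result :
    ∀ (K : Type) [Field K] [CharZero K], Hilbertian K →
      ∀ (F₁ : Type) [Field F₁] [Algebra K F₁] [FiniteDimensional K F₁] [IsGalois K F₁],
      Closure K F₁ ∧ Powers K F₁ := by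
  intro K _ _ hK F₁ _ _ _ _
  refine ⟨fun X _ _ π hX P hP hPπ hperf => ?_,
    fun B _ _ α hw hperf χ n hn => hil_tower K F₁ B α hK hw hperf χ n hn⟩
  obtain ⟨k₀, hk₀⟩ := mainL K F₁ X π hX P hP hPπ hperf
  exact ⟨k₀, fun k hk => hil_regL K F₁ _ _ hK (hk₀ k hk)⟩
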