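import Mathlib
import Pool.Agent.Y60.DCF.Main

/-!
# Hilbertian fields of characteristic `p`: kernels composed of classical groups and `p`-groups

All definitions of the class of homomorphisms are in the file `Pool/Agent/Y60/DCF/Defs.lean`:

* `Factor p T`: the group `T` has order `p`, or is one of the simple groups `PSL_2(F)`
  (`F` a field with `p ^ k ≥ 4` elements, `p = 2` or `k` odd), `PSL_n(F)` (`F` a finite field of
  characteristic `p`, `n ≥ 3` prime to `|F| - 1`), `PSp_2n(F)` (`F` a field with `p ^ k` elements,
  `n ≥ 2` and `k` odd if `p ≠ 2`, `n ≥ 3` if `p = 2`), or any nonabelian simple group with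
  `IsClassical p T`: a quotient of the connected unitary group `U⁰(R)` of a finite ring `R` of
  characteristic `p` with an involution, such that `Aut T` is the semidirect product of the inner
  automorphisms and a group of automorphisms induced by automorphisms of the ring with involution
  `R`. `CompIn (Factor p) N` (file `Pool/Agent/Y60/DC/Def.lean`): `N` has a finite composition series
  all of whose factors are of this kind.
* `Step p K` is the smallest class of homomorphisms `π : W' → W` of groups which is closed under
  composition and under quotients (`π ∘ q` in the class, `q` surjective, then `π` in the class) and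
  contains
  - all epimorphisms, split or not, with a finite kernel `N` such that `CompIn (Factor p) N`,
  - the split ones whose kernel is `U⁰(R)` for a finite ring `R` of characteristic `p` with an
    involution, with the action given by automorphisms of the ring with involution, in particular
    those whose kernel is the unit group of a finite ring of characteristic `p`,
  - the split ones whose kernel is a power of `SL_2(F)`, `SL_n(F)` (`n` prime to `|F| - 1`) or
    `Sp_2n(F)`, with any action through the wreath product,
  - the class `Cls K` of the file `Pool/Agent/TH444/TW/ClsDef.lean` (which contains all split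
    epimorphisms with a finite abelian kernel).

The theorem: let `K` be any Hilbertian field of characteristic `p > 0`, `L` a finite Galois
extension of `K` and `Gal(L/K) = W 0 ← W 1 ← W 2 ← ...` a sequence of homomorphisms in the class
`Step p K`. Then `L` is contained in a Galois extension of `K` whose group is the inverse limit of
the `W i`, compatibly with restriction to `L`. The case of a constant sequence `W 1 = W 2 = ...` is
that of finite embedding problems.
-/

set_option autoImplicit false

open Pool.Agent.Y60.DCF (Step)

namespace Pool.Agent.Results.MP_e9d732_al.DefiningChar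

/-- The inverse limit of the sequence `W 0 ← W 1 ← W 2 ← ...`: the group of all sequences `x` with
`p i (x (i + 1)) = x i`. -/
abbrev InvLim {W : ℕ → Type} [∀ i, Group (W i)] (p : ∀ i, W (i + 1) →* W i) : Subgroup (∀ i, W i) :=
  Pool.Agent.TH15.IGP.Lim p

/-- The defining property of the inverse limit. -/
theorem mem_invLim {W : ℕ → Type} [∀ i, Group (W i)] (p : ∀ i, W (i + 1) →* W i)
    (x : ∀ i, W i) : x ∈ InvLim p ↔ ∀ i, p i (x (i + 1)) = x i := Iff.rfl

/-- The embedding problem over `K` given by the finite Galois extension `L` of `K` and the
projection `x ↦ e₀ (x 0)` of the inverse limit of the `W i` to `Gal(L/K)` has a proper solution: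
there are a Galois extension `F` of `K` containing `L` and an isomorphism `γ` of `Gal(F/K)` with the
inverse limit, all of whose components are continuous (have open kernel), such that the action on
`L` is `σ ↦ e₀ (component of γ σ in W 0)`. -/
def ProperSol (K L : Type) [Field K] [Field L] [Algebra K L] {W : ℕ → Type} [∀ i, Group (W i)]
    (p : ∀ i, W (i + 1) →* W i) (e₀ : W 0 ≃* (L ≃ₐ[K] L)) : Prop :=
  ∃ (F : Type) (_ : Field F) (_ : Algebra K F) (_ : Algebra L F) (_ : IsScalarTower K L F)
    (_ : IsGalois K F) (γ : (F ≃ₐ[K] F) ≃* InvLim p),
    (∀ i, IsOpen {σ : F ≃ₐ[K] F | (γ σ).1 i = 1}) ∧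
    ∀ (σ : F ≃ₐ[K] F) (x : L), σ (algebraMap L F x) = algebraMap L F (e₀ ((γ σ).1 0) x)

/-- The case of finite embedding problems, in the form of the question. -/
theorem finite_case (p : ℕ) [Fact p.Prime] (K : Type) [Field K] [CharP K p]
    (hK : Pool.Agent.H391R2.T4.HilbField K) (L G : Type) [Field L]
    [Algebra K L] [FiniteDimensional K L] [IsGalois K L] [Group G] [Finite G]
    (α : G →* (L ≃ₐ[K] L)) (hα : Function.Surjective α)
    (h : Pool.Agent.Y60.DC.CompIn (Pool.Agent.Y60.DCF.Factor p) α.ker) :
    ∃ (F : Type) (_ : Field F) (_ : Algebra K F) (_ : Algebra L F)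
          (_ : IsScalarTower K L F),
          FiniteDimensional K F ∧ IsGalois K F ∧
          ∃ γ : (F ≃ₐ[K] F) ≃* G, ∀ σ : F ≃ₐ[K] F, α (γ σ) = σ.restrictNormal L :=
  Pool.Agent.Y60.DC.clsC_spec_one p (Pool.Agent.TH377.IG.spec_hilb hK) L G α
    (Step.kernel α hα inferInstance h).old

end Pool.Agent.Results.MP_e9d732_al.DefiningChar

open Pool.Agent.Results.MP_e9d732_al.DefiningChar in
theorem Pool.Agent.Results.MP_e9d732_al.DefiningChar.result :
    ∀ (p : ℕ) [Fact p.Prime] (K : Type) [Field K] [CharP K p],
      (∀ (f : Polynomial (Polynomial K)), f.Monic → Irreducible f →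
          (f.map (algebraMap (Polynomial K) (FractionRing (Polynomial K)))).Separable →
          ∀ g : Polynomial K, g ≠ 0 →
            ∃ a : K, g.eval a ≠ 0 ∧ Irreducible (f.map (Polynomial.evalRingHom a))) →
      ∀ (L : Type) [Field L] [Algebra K L] [FiniteDimensional K L] [IsGalois K L]
        (W : ℕ → Type) [∀ i, Group (W i)] (e₀ : W 0 ≃* (L ≃ₐ[K] L))
        (π : ∀ i, W (i + 1) →* W i), (∀ i, Step p K (π i)) → ProperSol K L π e₀ := by
  intro p _ K _ _ hK L _ _ _ _ W _ e₀ π hp
  exact Pool.Agent.Y60.DC.clsC_hilb p hK W π (fun i => (hp i).old) L e₀
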