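import Pool.Agent.Y943.NG.Hil

/-!
# Normal solutions of embedding problems over Hilbertian fields

Let `L/K` be finite Galois and `α : B → Gal(L/K)` a finite embedding problem.

* `ProperSol K L B α`: there is a finite Galois extension `M` of `K` containing `L` and an
  isomorphism `γ : Gal(M/K) → B` such that `σ` acts on `L` as `α (γ σ)`.
* `NormalSol K L B α`: there are a (possibly infinite) Galois extension `M` of `K` containing `L`,
  a subfield `F` of `M`, Galois over `K`, and an isomorphism `γ : Gal(M/F) → B` such that `σ` acts on
  `L` as `α (γ σ)`. For surjective `α` this is a proper solution over `F` of the problem `α`, lifted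
  to the Galois extension `F` of `K` with `F ∩ L = K`, by a field `M` which is Galois over `K`.

Theorem.  Over every Hilbertian field `K` (of any characteristic) all finite split embedding problems
have proper solutions if and only if all finite split embedding problems have normal solutions; the
same holds for all finite embedding problems.  For one problem (over any field `K`) such that the
centre of `Gal(L/K)` is trivial: there is a finite group `H` and a split epimorphism `β : H → B`,
depending only on `B`, such that `α` has a proper solution as soon as `α ∘ β` has a normal solution.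
-/

set_option autoImplicit false

namespace Pool.Agent.Results.MP_e9d732_al.NormalSolutions

open Pool.Agent.Y943.NG

/-- `K` is Hilbertian (in the form used in frozen statement S03429). -/
def Hilbertian (K : Type) [Field K] : Prop :=
  ∀ (f : Polynomial (Polynomial K)), f.Monic → Irreducible f →
    (f.map (algebraMap (Polynomial K) (FractionRing (Polynomial K)))).Separable →
    ∀ g : Polynomial K, g ≠ 0 →
      ∃ a : K, g.eval a ≠ 0 ∧ Irreducible (f.map (Polynomial.evalRingHom a))

/-- Every finite split embedding problem over `K` has a proper solution. -/
def SplitProper (K : Type) [Field K] : Prop :=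
  ∀ (L B : Type) [Field L] [Algebra K L] [FiniteDimensional K L] [IsGalois K L] [Group B]
    [Finite B] (α : B →* (L ≃ₐ[K] L)) (s : (L ≃ₐ[K] L) →* B), (∀ g, α (s g) = g) →
    ProperSol K L B α

/-- Every finite split embedding problem over `K` has a normal solution. -/
def SplitNormal (K : Type) [Field K] : Prop :=
  ∀ (L B : Type) [Field L] [Algebra K L] [FiniteDimensional K L] [IsGalois K L] [Group B]
    [Finite B] (α : B →* (L ≃ₐ[K] L)) (s : (L ≃ₐ[K] L) →* B), (∀ g, α (s g) = g) →
    NormalSol K L B α

/-- Every finite embedding problem over `K` has a proper solution. -/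
def AllProper (K : Type) [Field K] : Prop :=
  ∀ (L B : Type) [Field L] [Algebra K L] [FiniteDimensional K L] [IsGalois K L] [Group B]
    [Finite B] (α : B →* (L ≃ₐ[K] L)), Function.Surjective α → ProperSol K L B α

/-- Every finite embedding problem over `K` has a normal solution. -/
def AllNormal (K : Type) [Field K] : Prop :=
  ∀ (L B : Type) [Field L] [Algebra K L] [FiniteDimensional K L] [IsGalois K L] [Group B]
    [Finite B] (α : B →* (L ≃ₐ[K] L)), Function.Surjective α → NormalSol K L B α

theorem result :
    (∀ (K : Type) [Field K], Hilbertian K →
      (SplitProper K ↔ SplitNormal K) ∧ (AllProper K ↔ AllNormal K)) ∧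
    ∀ (B : Type) [Group B] [Finite B], ∃ (H : Type) (_ : Group H) (_ : Finite H) (β : H →* B)
      (s : B →* H), (∀ b, β (s b) = b) ∧
      ∀ (K L : Type) [Field K] [Field L] [Algebra K L] [FiniteDimensional K L] [IsGalois K L]
        (α : B →* (L ≃ₐ[K] L)), Function.Surjective α →
        (∀ g : L ≃ₐ[K] L, (∀ h, g * h = h * g) → g = 1) →
        NormalSol K L H (α.comp β) → ProperSol K L B α := by
  refine ⟨fun K _ hK => ⟨ep_split (abSol_of_hilb hK), ep_all (abSol_of_hilb hK)⟩,
    fun B _ _ => ?_⟩
  obtain ⟨H, i1, i2, ρ, s, hs⟩ := cover' B
  refine ⟨H, i1, i2, ρ.comp MulAut.conj, s, hs, fun K L _ _ _ _ _ α hα hZ hN => ?_⟩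
  exact core α hα hZ ρ (fun g => ⟨s g, hs g⟩) hN

end Pool.Agent.Results.MP_e9d732_al.NormalSolutions
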