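import Mathlib
import Pool.Agent.Y140.HD.Fin

/-!
# Split embedding problems over Hilbertian fields and the Dèbes-Deschamps conjecture

Let `k` be a field and let `𝒩` be a class of groups such that `N × N` is in `𝒩` if `N` is. Then the
following are equivalent: all finite split embedding problems with kernel in `𝒩` over all Hilbertian
fields containing `k` have proper solutions; the same for the Hilbertian fields `K(t)`, `K` any
field containing `k`; all finite split embedding problems with kernel in `𝒩` over all fields `K`
containing `k` have regular solutions over `K(t)`. The same holds without `split`. In particular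
(`𝒩` all groups) the question about Hilbertian fields is equivalent to the conjecture of Dèbes and
Deschamps.
-/

set_option autoImplicit false

namespace Pool.Agent.Results.MP_e9d732_al.RegularEquivalence

/-- `K` is Hilbertian (as in frozen statement S03429). -/
def Hilbertian (K : Type) [Field K] : Prop :=
  ∀ (f : Polynomial (Polynomial K)), f.Monic → Irreducible f →
    (f.map (algebraMap (Polynomial K) (FractionRing (Polynomial K)))).Separable →
    ∀ g : Polynomial K, g ≠ 0 →
      ∃ a : K, g.eval a ≠ 0 ∧ Irreducible (f.map (Polynomial.evalRingHom a))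

/-- The embedding problem `α : E → Gal(L/K)` has a regular solution over `K(t)`: there are a finite
Galois extension `F` of `K(t)` containing `L`, with `L` algebraically closed in `F`, and an
isomorphism `γ` of `Gal(F/K(t))` with `E` such that `σ` acts on `L` as `α (γ σ)`. -/
def RegularSolution (K L E : Type) [Field K] [Field L] [Algebra K L] [Group E]
    (α : E →* (L ≃ₐ[K] L)) : Prop :=
  ∃ (F : Type) (_ : Field F) (_ : Algebra (RatFunc K) F) (_ : Algebra L F)
    (_ : Algebra K F) (_ : IsScalarTower K (RatFunc K) F) (_ : IsScalarTower K L F)
    (_ : FiniteDimensional (RatFunc K) F) (_ : IsGalois (RatFunc K) F)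
    (γ : (F ≃ₐ[RatFunc K] F) ≃* E),
    (∀ (σ : F ≃ₐ[RatFunc K] F) (x : L), σ (algebraMap L F x) = algebraMap L F (α (γ σ) x)) ∧
    ∀ y : F, IsAlgebraic L y → y ∈ Set.range (algebraMap L F)

/-- The embedding problem `α : E → Gal(L/K)` has a proper solution: there are a finite Galois
extension `F` of `K` containing `L` and an isomorphism `γ` of `Gal(F/K)` with `E` such that
`α (γ σ)` is the restriction of `σ` to `L`. -/
def ProperSolution (K L E : Type) [Field K] [Field L] [Algebra K L] [Normal K L] [Group E]
    (α : E →* (L ≃ₐ[K] L)) : Prop :=
  ∃ (F : Type) (_ : Field F) (_ : Algebra K F) (_ : Algebra L F) (_ : IsScalarTower K L F),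
    FiniteDimensional K F ∧ IsGalois K F ∧
    ∃ γ : (F ≃ₐ[K] F) ≃* E, ∀ σ : F ≃ₐ[K] F, α (γ σ) = σ.restrictNormal L

/-- `α` has a section which is a homomorphism. -/
def IsSplit {G Γ : Type} [Group G] [Group Γ] (α : G →* Γ) : Prop :=
  ∃ s : Γ →* G, ∀ x, α (s x) = x

/-- All finite split embedding problems over `K` with kernel isomorphic to `N` are properly
solvable. -/
def SplitProper (K N : Type) [Field K] [Group N] : Prop :=
  ∀ (L : Type) [Field L] [Algebra K L] [FiniteDimensional K L] [IsGalois K L]
    (G : Type) [Group G] [Finite G] (α : G →* (L ≃ₐ[K] L)),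
    Function.Surjective α → IsSplit α → Nonempty (α.ker ≃* N) → ProperSolution K L G α

/-- All finite split embedding problems over `K` with kernel isomorphic to `N` have regular
solutions over `K(t)`. -/
def SplitRegular (K N : Type) [Field K] [Group N] : Prop :=
  ∀ (L : Type) [Field L] [Algebra K L] [FiniteDimensional K L] [IsGalois K L]
    (G : Type) [Group G] [Finite G] (α : G →* (L ≃ₐ[K] L)),
    Function.Surjective α → IsSplit α → Nonempty (α.ker ≃* N) → RegularSolution K L G α

/-- All finite embedding problems (split or not) over `K` with kernel isomorphic to `N` are properly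
solvable. -/
def AllProper (K N : Type) [Field K] [Group N] : Prop :=
  ∀ (L : Type) [Field L] [Algebra K L] [FiniteDimensional K L] [IsGalois K L]
    (G : Type) [Group G] [Finite G] (α : G →* (L ≃ₐ[K] L)),
    Function.Surjective α → Nonempty (α.ker ≃* N) → ProperSolution K L G α

/-- All finite embedding problems (split or not) over `K` with kernel isomorphic to `N` have regular
solutions over `K(t)`. -/
def AllRegular (K N : Type) [Field K] [Group N] : Prop :=
  ∀ (L : Type) [Field L] [Algebra K L] [FiniteDimensional K L] [IsGalois K L]
    (G : Type) [Group G] [Finite G] (α : G →* (L ≃ₐ[K] L)),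
    Function.Surjective α → Nonempty (α.ker ≃* N) → RegularSolution K L G α

/-- For all fields `K` containing `k` and kernels in `𝒩`, the following are equivalent: regular
solutions over all `K`; proper solutions over all Hilbertian `K`; proper solutions over `K(t)` for
all `K`. Here `P` and `R` stand for the two kinds of solvability (for split problems `SplitProper`
and `SplitRegular`, for all problems `AllProper` and `AllRegular`). -/
def Equivalent (k : Type) [Field k] (𝒩 : ∀ (N : Type) [Group N], Prop)
    (P R : ∀ (K N : Type) [Field K] [Group N], Prop) : Prop :=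
  List.TFAE
    [∀ (N : Type) [Group N], 𝒩 N → ∀ (K : Type) [Field K] [Algebra k K], R K N,
     ∀ (N : Type) [Group N], 𝒩 N → ∀ (K : Type) [Field K] [Algebra k K], Hilbertian K → P K N,
     ∀ (N : Type) [Group N], 𝒩 N → ∀ (K : Type) [Field K] [Algebra k K], P (RatFunc K) N]

theorem result (k : Type) [Field k] (𝒩 : ∀ (N : Type) [Group N], Prop)
    (hsq : ∀ (N : Type) [Group N], 𝒩 N → 𝒩 (N × N)) :
    Equivalent k 𝒩 SplitProper SplitRegular ∧ Equivalent k 𝒩 AllProper AllRegular :=
  Pool.Agent.Y140.HD.classes k 𝒩 hsq

end Pool.Agent.Results.MP_e9d732_al.RegularEquivalence
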